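import Mathlib
import Pool.Agent.Helper116_Min.Main

/-!
In every model of `WKL₀`, every computably dominated (hyperimmune-free) set of PA degree computes
a set of minimal Turing degree.
-/

namespace Pool.Agent.Results.MP_10a7da_lc.DominatedPA

open Pool.Agent.Helper617.RM Pool.Agent.Helper116.Min

universe u

/-- Let `N` be a model of `WKL₀` (no further induction is assumed) and let `X` be a set of `N` of
PA degree which is computably dominated in `N`. Then `X` computes a set of minimal degree of `N`.
In particular every model of `WKL₀` with a computably dominated set of PA degree has a set of
minimal Turing degree. -/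
theorem result (N : L2Structure.{u}) [IsModelRCA0 N] (hW : WKL N) (X : Set N.M)
    (hX : X ∈ N.Sets) (hPA : IsPA N X) (hD : IsDominated N X) :
    ∃ A, TuringLE N A X ∧ IsMinimal N A :=
  minimal_of_dominated hW hX hPA hD

end Pool.Agent.Results.MP_10a7da_lc.DominatedPA
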