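import Mathlib
import Pool.Agent.Helper116_Min.Main

/-!
`WKL₀` proves that there is a noncomputable set `A` such that every set truth-table reducible to
`A` is computable or computes `A`; in fact all paths of one computable tree have this property.
-/

namespace Pool.Agent.Results.MP_10a7da_lc.TTMinimal

open Pool.Agent.Helper617.RM Pool.Agent.Helper116.Min

universe u

/-- Every model `N` of `WKL₀` (no further induction is assumed) has a computable infinite binary
tree `T` such that every path `A` of `T` in `N` is noncomputable, and every set `B` which is
truth-table reducible to `A` is computable or computes `A`. -/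
theorem result (N : L2Structure.{u}) [IsModelRCA0 N] (hW : WKL N) :
    ∃ T : Set N.M, Computable N T ∧ IsBinTree N T ∧ ∀ A ∈ N.Sets, IsPath N T A →
      ¬ Computable N A ∧ ∀ B, TTLE N B A → Computable N B ∨ TuringLE N A B :=
  main_tree hW

end Pool.Agent.Results.MP_10a7da_lc.TTMinimal
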